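import Pool.Agent.Helper72.MK.GoalsT

/-! Packet MK-EIG (MP_6fb600_gt): algebra of the Pauli matrices. -/

noncomputable section

namespace Pool.Agent.Helper79.MK

open Pool.Agent.Helper72.MK

theorem nm_nonneg (v : Fin 3 → ℝ) : 0 ≤ nm v := Real.sqrt_nonneg _

theorem nm_sq (v : Fin 3 → ℝ) : nm v ^ 2 = v 0 ^ 2 + v 1 ^ 2 + v 2 ^ 2 :=
  Real.sq_sqrt (by positivity)

theorem nm_sqC (v : Fin 3 → ℝ) :
    (nm v : ℂ) ^ 2 = (v 0 : ℂ) ^ 2 + (v 1 : ℂ) ^ 2 + (v 2 : ℂ) ^ 2 := by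
  exact_mod_cast nm_sq v

theorem nm_pos {v : Fin 3 → ℝ} (hv : v ≠ 0) : 0 < nm v := by
  rcases (nm_nonneg v).lt_or_eq with h | h
  · exact h
  · exfalso
    apply hv
    have h1 := nm_sq v
    rw [← h] at h1
    have h0 : v 0 = 0 := by nlinarith [sq_nonneg (v 0), sq_nonneg (v 1), sq_nonneg (v 2)]
    have h2 : v 1 = 0 := by nlinarith [sq_nonneg (v 0), sq_nonneg (v 1), sq_nonneg (v 2)]
    have h3 : v 2 = 0 := by nlinarith [sq_nonneg (v 0), sq_nonneg (v 1), sq_nonneg (v 2)]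
    ext i
    fin_cases i
    · exact h0
    · exact h2
    · exact h3

theorem nm_neg (v : Fin 3 → ℝ) : nm (-v) = nm v := by
  unfold nm
  simp only [Pi.neg_apply, neg_sq]

theorem eig1 (v : Fin 3 → ℝ) (s : ℂ × ℂ) : PM v (PM v s) = ((nm v : ℂ) ^ 2) • s := by
  have hN := nm_sqC v
  have hI := Complex.I_sq
  unfold PM
  ext
  · simp only [Prod.smul_fst, smul_eq_mul]
    rw [hN]
    linear_combination (-(v 1 : ℂ) ^ 2 * s.1) * hI
  · simp only [Prod.smul_snd, smul_eq_mul]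
    rw [hN]
    linear_combination (-(v 1 : ℂ) ^ 2 * s.2) * hI

theorem eig_coord {v : Fin 3 → ℝ} {s : ℂ × ℂ} {x : ℂ} (h : PM v s = x • s) :
    (v 2 : ℂ) * s.1 + ((v 0 : ℂ) - (v 1 : ℂ) * Complex.I) * s.2 = x * s.1 ∧
    ((v 0 : ℂ) + (v 1 : ℂ) * Complex.I) * s.1 - (v 2 : ℂ) * s.2 = x * s.2 := by
  have h1 := congrArg Prod.fst h
  have h2 := congrArg Prod.snd h
  simp only [PM, Prod.smul_fst, Prod.smul_snd, smul_eq_mul] at h1 h2
  exact ⟨h1, h2⟩

theorem fr_eq {s t : ℂ × ℂ} (hs : s ≠ 0) (hd : dt s t = 0) : t = fr s t • s := by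
  have hd' : s.1 * t.2 = s.2 * t.1 := sub_eq_zero.1 hd
  have hpos : 0 < ‖s.1‖ ^ 2 + ‖s.2‖ ^ 2 := by
    by_contra hcon
    apply hs
    have h1 : ‖s.1‖ ^ 2 = 0 := by nlinarith [sq_nonneg ‖s.1‖, sq_nonneg ‖s.2‖]
    have h2 : ‖s.2‖ ^ 2 = 0 := by nlinarith [sq_nonneg ‖s.1‖, sq_nonneg ‖s.2‖]
    ext
    · simpa using h1
    · simpa using h2
  have hne : ((‖s.1‖ ^ 2 + ‖s.2‖ ^ 2 : ℝ) : ℂ) ≠ 0 := by exact_mod_cast hpos.ne'
  have hq1 : ((‖s.1‖ ^ 2 : ℝ) : ℂ) = star s.1 * s.1 := by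
    rw [← Complex.normSq_eq_norm_sq, Complex.star_def, Complex.normSq_eq_conj_mul_self]
  have hq2 : ((‖s.2‖ ^ 2 : ℝ) : ℂ) = star s.2 * s.2 := by
    rw [← Complex.normSq_eq_norm_sq, Complex.star_def, Complex.normSq_eq_conj_mul_self]
  have hq : ((‖s.1‖ ^ 2 + ‖s.2‖ ^ 2 : ℝ) : ℂ) = star s.1 * s.1 + star s.2 * s.2 := by
    rw [Complex.ofReal_add, hq1, hq2]
  unfold fr
  ext
  · simp only [Prod.smul_fst, smul_eq_mul]
    rw [div_mul_eq_mul_div, eq_div_iff hne, hq]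
    linear_combination (-star s.2) * hd'
  · simp only [Prod.smul_snd, smul_eq_mul]
    rw [div_mul_eq_mul_div, eq_div_iff hne, hq]
    linear_combination (star s.1) * hd'

theorem eig2 (v : Fin 3 → ℝ) (s t : ℂ × ℂ) (hv : v ≠ 0) (hs : Eig v s) (ht : Eig v t) :
    fr s t ≠ 0 ∧ t = fr s t • s := by
  obtain ⟨hs0, hs1⟩ := hs
  obtain ⟨ht0, ht1⟩ := ht
  obtain ⟨e1, e2⟩ := eig_coord hs1
  obtain ⟨f1, f2⟩ := eig_coord ht1
  have hN : (nm v : ℂ) ≠ 0 := by exact_mod_cast (nm_pos hv).ne'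
  have hd : dt s t = 0 := by
    have h1 : ((v 2 : ℂ) - nm v) * dt s t = 0 := by
      unfold dt
      linear_combination t.2 * e1 - s.2 * f1
    have h2 : ((v 2 : ℂ) + nm v) * dt s t = 0 := by
      unfold dt
      linear_combination (-s.1) * f2 + t.1 * e2
    have h3 : (2 * (nm v : ℂ)) * dt s t = 0 := by linear_combination h2 - h1
    rcases mul_eq_zero.1 h3 with h4 | h4
    · exact absurd h4 (mul_ne_zero two_ne_zero hN)
    · exact h4
  have h := fr_eq hs0 hd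
  refine ⟨fun h0 => ht0 ?_, h⟩
  rw [h, h0, zero_smul]

theorem eig3 (v : Fin 3 → ℝ) (s t : ℂ × ℂ) (hv : v ≠ 0) (hs : Eig v s) (ht : Eig (-v) t) :
    dt s t ≠ 0 := by
  intro hd
  obtain ⟨hs0, hs1⟩ := hs
  obtain ⟨ht0, ht1⟩ := ht
  rw [nm_neg] at ht1
  have hN : (nm v : ℂ) ≠ 0 := by exact_mod_cast (nm_pos hv).ne'
  have h := fr_eq hs0 hd
  obtain ⟨e1, e2⟩ := eig_coord hs1
  obtain ⟨f1, f2⟩ := eig_coord ht1
  have h1 := congrArg Prod.fst h
  have h2 := congrArg Prod.snd h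
  simp only [Prod.smul_fst, Prod.smul_snd, smul_eq_mul] at h1 h2
  set f := fr s t with hf
  simp only [Pi.neg_apply, Complex.ofReal_neg] at f1 f2
  have g1 : (2 * (nm v : ℂ)) * t.1 = 0 := by
    rw [h1, h2] at f1
    rw [h1]
    linear_combination (-1 : ℂ) * f1 - f * e1
  have g2 : (2 * (nm v : ℂ)) * t.2 = 0 := by
    rw [h1, h2] at f2
    rw [h2]
    linear_combination (-1 : ℂ) * f2 - f * e2
  apply ht0
  ext
  · rcases mul_eq_zero.1 g1 with h4 | h4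
    · exact absurd h4 (mul_ne_zero two_ne_zero hN)
    · exact h4
  · rcases mul_eq_zero.1 g2 with h4 | h4
    · exact absurd h4 (mul_ne_zero two_ne_zero hN)
    · exact h4

theorem pm_add (w : Fin 3 → ℝ) (s t : ℂ × ℂ) : PM w (s + t) = PM w s + PM w t := by
  unfold PM
  ext
  · simp only [Prod.fst_add, Prod.snd_add]; ring
  · simp only [Prod.fst_add, Prod.snd_add]; ring

theorem pm_smul (w : Fin 3 → ℝ) (x : ℂ) (s : ℂ × ℂ) : PM w (x • s) = x • PM w s := by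
  unfold PM
  ext
  · simp only [Prod.smul_fst, Prod.smul_snd, smul_eq_mul]; ring
  · simp only [Prod.smul_fst, Prod.smul_snd, smul_eq_mul]; ring

theorem pm_sub (v w : Fin 3 → ℝ) (s : ℂ × ℂ) : PM (v - w) s = PM v s - PM w s := by
  unfold PM
  ext
  · simp only [Prod.fst_sub, Pi.sub_apply, Complex.ofReal_sub]; ring
  · simp only [Prod.snd_sub, Pi.sub_apply, Complex.ofReal_sub]; ring

theorem eig4 (v w : Fin 3 → ℝ) (s : ℂ × ℂ) (hvw : nm (v - w) < nm v + nm w) (hs : Eig v s) :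
    Eig w (PM w s + (nm w : ℂ) • s) := by
  obtain ⟨hs0, hs1⟩ := hs
  refine ⟨fun h0 => ?_, ?_⟩
  · have h1 : PM w s = (-(nm w : ℂ)) • s := by
      rw [neg_smul]
      exact eq_neg_of_add_eq_zero_left h0
    have h2 : PM (v - w) s = ((nm v : ℂ) + nm w) • s := by
      rw [pm_sub, hs1, h1, ← sub_smul, sub_neg_eq_add]
    have h3 := eig1 (v - w) s
    rw [h2, pm_smul, h2, smul_smul] at h3
    have h4 : (((nm v : ℂ) + nm w) * ((nm v : ℂ) + nm w) - (nm (v - w) : ℂ) ^ 2) • s = 0 := by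
      rw [sub_smul, h3, sub_self]
    rcases smul_eq_zero.1 h4 with h5 | h5
    · have h6 : ((((nm v + nm w) * (nm v + nm w) - nm (v - w) ^ 2 : ℝ)) : ℂ) = 0 := by
        push_cast
        exact h5
      have h7 : (nm v + nm w) * (nm v + nm w) - nm (v - w) ^ 2 = 0 := by exact_mod_cast h6
      have h8 := nm_nonneg (v - w)
      have h9 : nm (v - w) ^ 2 < (nm v + nm w) ^ 2 := by
        apply pow_lt_pow_left₀ hvw h8 two_ne_zero
      nlinarith
    · exact hs0 h5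
  · rw [pm_add, pm_smul, eig1, smul_add, smul_smul, ← pow_two, add_comm]

theorem eig5 (v : Fin 3 → ℝ) (hv : v ≠ 0) : ∃ s, Eig v s := by
  have hN : (nm v : ℂ) ≠ 0 := by exact_mod_cast (nm_pos hv).ne'
  have hsq := nm_sqC v
  have hI := Complex.I_sq
  by_cases h : (nm v : ℂ) - v 2 = 0
  · refine ⟨((nm v : ℂ) + v 2, (v 0 : ℂ) + (v 1 : ℂ) * Complex.I), fun h0 => ?_, ?_⟩
    · have h1 := congrArg Prod.fst h0
      simp only [Prod.fst_zero] at h1
      apply hN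
      have h2 : (2 : ℂ) * (nm v : ℂ) = 0 := by linear_combination h + h1
      rcases mul_eq_zero.1 h2 with h3 | h3
      · exact absurd h3 two_ne_zero
      · exact h3
    · unfold PM
      ext
      · simp only [Prod.smul_fst, smul_eq_mul]
        linear_combination (-(v 1 : ℂ) ^ 2) * hI - hsq
      · simp only [Prod.smul_snd, smul_eq_mul]
        ring
  · refine ⟨((v 0 : ℂ) - (v 1 : ℂ) * Complex.I, (nm v : ℂ) - v 2), fun h0 => ?_, ?_⟩
    · exact h (congrArg Prod.snd h0)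
    · unfold PM
      ext
      · simp only [Prod.smul_fst, smul_eq_mul]
        ring
      · simp only [Prod.smul_snd, smul_eq_mul]
        linear_combination (-(v 1 : ℂ) ^ 2) * hI - hsq

theorem eig : EIGStmt := ⟨eig1, eig2, eig3, eig4, eig5⟩

end Pool.Agent.Helper79.MK
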