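import Pool.Agent.Helper72.MK.Goals

/-! Packet MK-QVC (MP_6fb600_gt): continuity of the quarter function in the vectors. -/

open MeasureTheory Set Filter Topology
open scoped ENNReal
open Pool.Agent.Helper47.AQ

noncomputable section

namespace Pool.Agent.Helper79.MK

open Pool.Agent.Helper72.MK

/-- hyperplanes are null -/
theorem ip_null (w : Fin 3 → ℝ) (hw : w ≠ 0) : volume {x : Fin 3 → ℝ | ip x w = 0} = 0 := by
  let l : (Fin 3 → ℝ) →ₗ[ℝ] ℝ :=
    { toFun := fun x => ip x w
      map_add' := fun x y => by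
        simp only [ip, Pi.add_apply, add_mul, Finset.sum_add_distrib]
      map_smul' := fun c x => by
        simp only [ip, Pi.smul_apply, smul_eq_mul, Finset.mul_sum, RingHom.id_apply, mul_assoc] }
  have h1 : {x : Fin 3 → ℝ | ip x w = 0} = (LinearMap.ker l : Set (Fin 3 → ℝ)) := by
    ext x
    simp only [mem_ofPred_eq, SetLike.mem_coe, LinearMap.mem_ker]
    rfl
  rw [h1]
  apply Measure.addHaar_submodule
  intro htop
  apply hw
  ext i
  have h2 : (Pi.single i (1 : ℝ) : Fin 3 → ℝ) ∈ LinearMap.ker l := by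
    rw [htop]; exact Submodule.mem_top
  have h3 : ip (Pi.single i (1 : ℝ)) w = 0 := LinearMap.mem_ker.1 h2
  unfold ip at h3
  rw [Finset.sum_eq_single i (fun j _ hj => by rw [Pi.single_eq_of_ne hj, zero_mul])
    (fun h => absurd (Finset.mem_univ i) h), Pi.single_eq_same, one_mul] at h3
  exact h3

theorem ip_continuous : Continuous (fun q : (Fin 3 → ℝ) × (Fin 3 → ℝ) => ip q.1 q.2) := by
  unfold ip
  fun_prop

theorem qvc (hDCV : DCVStmt) (hBODY : BODYStmt) : QVCStmt := by
  intro K hK t q₀ hq₀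
  have hL := (hBODY (Fin 3) K hK).1
  set L := dpol K with hLdef
  have hLm : MeasurableSet L := hL.comp.isClosed.measurableSet
  have hLv : volume L ≠ ⊤ := hL.comp.measure_lt_top.ne
  have hcont : Continuous (fun q : ((Fin 3 → ℝ) × (Fin 3 → ℝ)) × (Fin 3 → ℝ) =>
      ip q.2 q.1.1 - t * |ip q.2 q.1.2|) := by
    have h1 : Continuous (fun q : ((Fin 3 → ℝ) × (Fin 3 → ℝ)) × (Fin 3 → ℝ) => ip q.2 q.1.1) :=
      ip_continuous.comp (continuous_snd.prodMk (continuous_fst.comp continuous_fst))
    have h2 : Continuous (fun q : ((Fin 3 → ℝ) × (Fin 3 → ℝ)) × (Fin 3 → ℝ) => ip q.2 q.1.2) :=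
      ip_continuous.comp (continuous_snd.prodMk (continuous_snd.comp continuous_fst))
    exact h1.sub (continuous_const.mul h2.abs)
  have hmeas : ∀ q : (Fin 3 → ℝ) × (Fin 3 → ℝ),
      Measurable (fun x : Fin 3 → ℝ => ip x q.1 - t * |ip x q.2|) := fun q =>
    (hcont.comp (continuous_const.prodMk continuous_id)).measurable
  have hnull : volume (L ∩ {x | ip x q₀.1 - t * |ip x q₀.2| = 0}) = 0 := by
    have hind := LinearIndependent.pair_iff.1 hq₀
    have hn1 : q₀.1 - t • q₀.2 ≠ 0 := by
      intro h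
      have h1 := hind 1 (-t) (by rw [one_smul, neg_smul, ← sub_eq_add_neg]; exact h)
      exact one_ne_zero h1.1
    have hn2 : q₀.1 + t • q₀.2 ≠ 0 := by
      intro h
      have h1 := hind 1 t (by rw [one_smul]; exact h)
      exact one_ne_zero h1.1
    have hadd : ∀ (x u v : Fin 3 → ℝ) (c : ℝ), ip x (u + c • v) = ip x u + c * ip x v := by
      intro x u v c
      unfold ip
      rw [Finset.mul_sum, ← Finset.sum_add_distrib]
      refine Finset.sum_congr rfl fun i _ => ?_
      simp only [Pi.add_apply, Pi.smul_apply, smul_eq_mul]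
      ring
    have hsub : L ∩ {x | ip x q₀.1 - t * |ip x q₀.2| = 0} ⊆
        {x | ip x (q₀.1 - t • q₀.2) = 0} ∪ {x | ip x (q₀.1 + t • q₀.2) = 0} := by
      rintro x ⟨_, hx⟩
      simp only [mem_ofPred_eq] at hx
      rcases le_total 0 (ip x q₀.2) with h | h
      · left
        simp only [mem_ofPred_eq]
        rw [sub_eq_add_neg, ← neg_smul, hadd]
        rw [abs_of_nonneg h] at hx
        linarith
      · right
        simp only [mem_ofPred_eq]
        rw [hadd]
        rw [abs_of_nonpos h] at hx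
        linarith
    exact measure_mono_null hsub (measure_union_null (ip_null _ hn1) (ip_null _ hn2))
  have key := hDCV ((Fin 3 → ℝ) × (Fin 3 → ℝ))
    (𝓝[{q : (Fin 3 → ℝ) × (Fin 3 → ℝ) | LinearIndependent ℝ ![q.1, q.2]}] q₀) 3 L
    (fun q x => ip x q.1 - t * |ip x q.2|) (fun x => ip x q₀.1 - t * |ip x q₀.2|)
    hLm hLv hmeas (hmeas q₀)
    (fun x _ => by
      have h1 : Continuous (fun q : (Fin 3 → ℝ) × (Fin 3 → ℝ) => ip x q.1 - t * |ip x q.2|) :=
        hcont.comp (continuous_id.prodMk continuous_const)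
      exact (h1.tendsto q₀).mono_left nhdsWithin_le_nhds)
    hnull
  simp only [sub_pos] at key
  exact key

end Pool.Agent.Helper79.MK
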